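import Mathlib
import Pool.Agent.Lib.helper26.BkrA

namespace Pool.Agent.Results.MP_3c3b39_pr.Strict
open Pool.Agent.Lib.helper26.Bkr

lemma eval3 {ι S : Type} (σ : ℕ → Set (ι → S)) (T : Br) (a i j k : ℕ) (h1 : a ≤ i) (hij : i < j)
    (hjk : j < k) (h2 : k < a + T.size)
    (h : ∀ m, a ≤ m → m < a + T.size → m ≠ i → m ≠ j → m ≠ k → σ m = Set.univ) :
    T.eval σ a = box (box (σ i) (σ j)) (σ k) ∨ T.eval σ a = box (σ i) (box (σ j) (σ k)) := by
  induction T generalizing a with
  | leaf => simp only [Br.size] at h2; omega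
  | node l r ihl ihr =>
    simp only [Br.size] at h h2
    rw [Br.eval]
    by_cases hk : k < a + l.size
    · rw [eval0 σ r _ fun m h3 h4 => h m (by omega) (by omega) (by omega) (by omega) (by omega),
        box_univ]
      exact ihl a h1 hk fun m h3 h4 => h m h3 (by omega)
    by_cases hj : j < a + l.size
    · left
      rw [eval2 σ l a i j hij.ne h1 (by omega) (by omega) hj fun m h3 h4 h5 h6 =>
          h m h3 (by omega) h5 h6 (by omega),
        eval1 σ r _ k (by omega) (by omega) fun m h3 h4 h5 =>
          h m (by omega) (by omega) (by omega) (by omega) h5]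
    by_cases hi : i < a + l.size
    · right
      rw [eval1 σ l a i h1 hi fun m h3 h4 h5 => h m h3 (by omega) h5 (by omega) (by omega),
        eval2 σ r _ j k hjk.ne (by omega) (by omega) (by omega) (by omega) fun m h3 h4 h5 h6 =>
          h m (by omega) (by omega) (by omega) h5 h6]
    · rw [eval0 σ l _ fun m h3 h4 => h m (by omega) (by omega) (by omega) (by omega) (by omega),
        univ_box]
      exact ihr _ (by omega) (by omega) fun m h3 h4 => h m (by omega) (by omega)

def pA (y : Fin 3 → Bool) : Bool := !y 2 && !(y 0 && y 1)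
def pB (y : Fin 3 → Bool) : Bool := !(!y 0 && y 1 && y 2)
def pC (y : Fin 3 → Bool) : Bool := !(y 0 && y 1 && y 2)

def A0 : ℕ → Set (Fin 3 → Bool)
  | 0 => {y | pA y = true}
  | 1 => {y | pB y = true}
  | 2 => {y | pC y = true}
  | _ + 3 => Set.univ

lemma m1 : (fun _ => false) ∈ box (box (A0 0) (A0 1)) (A0 2) := by
  simp only [mem_box_iff, A0, Set.mem_ofPred_eq]
  decide +kernel

lemma m2 : (fun _ => false) ∈ box (A0 0) (box (A0 1) (A0 2)) := by
  simp only [mem_box_iff, A0, Set.mem_ofPred_eq]
  decide +kernel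

lemma m3 : ∀ K L M : Fin 3 → Bool, (∀ i, K i = true → L i = false) →
    (∀ i, K i = true → M i = false) → (∀ i, L i = true → M i = false) →
    (∀ y : Fin 3 → Bool, (∀ i, K i = true → y i = false) → pA y = true) →
    (∀ y : Fin 3 → Bool, (∀ i, L i = true → y i = false) → pB y = true) →
    (∀ y : Fin 3 → Bool, (∀ i, M i = true → y i = false) → pC y = true) → False := by
  decide +kernel

theorem result (r : ℕ) (hr : 3 ≤ r) :
    ∃ (S : Type) (_ : Nonempty S) (d : ℕ) (_ : 1 ≤ d) (A : ℕ → Set (Fin d → S)),
      simul r A ⊂ ⋂ T : {T : Br // T.size = r}, T.1.eval A 0 := by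
  classical
  refine ⟨Bool, inferInstance, 3, by norm_num, A0, ?_⟩
  rw [Set.ssubset_iff_of_subset]
  · refine ⟨fun _ => false, Set.mem_iInter.2 fun T => ?_, ?_⟩
    · have hT := T.2
      rcases eval3 A0 T.1 0 0 1 2 le_rfl (by norm_num) (by norm_num) (by omega) (by
        intro m _ _ h0 h1 h2
        obtain ⟨n, rfl⟩ : ∃ n, m = n + 3 := ⟨m - 3, by omega⟩
        rfl) with h | h
      · rw [h]; exact m1
      · rw [h]; exact m2
    · rintro ⟨K, hd, hK⟩
      have hd' : ∀ a < r, ∀ b < r, a ≠ b → ∀ i, decide (i ∈ K a) = true → decide (i ∈ K b) = false :=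
        fun a ha b hb hab i hi => by
          simpa using Set.disjoint_left.1 (hd a ha b hb hab) (by simpa using hi)
      exact m3 (fun i => decide (i ∈ K 0)) (fun i => decide (i ∈ K 1)) (fun i => decide (i ∈ K 2))
        (hd' 0 (by omega) 1 (by omega) (by norm_num)) (hd' 0 (by omega) 2 (by omega) (by norm_num))
        (hd' 1 (by omega) 2 (by omega) (by norm_num))
        (fun y hy => hK 0 (by omega) fun i hi => hy i (by simpa using hi))
        (fun y hy => hK 1 (by omega) fun i hi => hy i (by simpa using hi))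
        (fun y hy => hK 2 (by omega) fun i hi => hy i (by simpa using hi))
  · refine Set.subset_iInter fun T => ?_
    have := simul_subset_eval A0 T.1
    rwa [T.2] at this

end Pool.Agent.Results.MP_3c3b39_pr.Strict
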